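import Mathlib
import Pool.Agent.H89.LE4

set_option autoImplicit false

namespace Pool.Agent.Results.MP_f65c66_pr.Dense

open MeasureTheory Filter Topology
open scoped ENNReal

/-- `G` is the adjacency relation of a locally finite tree with vertex set `ℕ`. -/
def IsLFTree (G : ℕ → ℕ → Prop) : Prop :=
  ∃ T : SimpleGraph ℕ, T.Adj = G ∧ T.IsTree ∧ ∀ v, {w | G v w}.Finite

/-- Relabelling of the vertices of a marked graph on `ℕ`. -/
def relabel {K : Type} (s : Equiv.Perm ℕ) (G : ℕ → ℕ → K) : ℕ → ℕ → K := fun a b => G (s a) (s b)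

/-- Mass transport principle for the law of a rooted marked graph on `ℕ`: it is asked for every
measurable `F ≥ 0` on doubly rooted marked graphs that is invariant under isomorphisms. -/
def Unimodular {K : Type} [MeasurableSpace K] (μ : Measure ((ℕ → ℕ → K) × ℕ)) : Prop :=
  ∀ F : (ℕ → ℕ → K) × ℕ × ℕ → ℝ≥0∞, Measurable F →
    (∀ (s : Equiv.Perm ℕ) G u v, F (relabel s G, u, v) = F (G, s u, s v)) →
    ∫⁻ x, ∑' v, F (x.1, x.2, v) ∂μ = ∫⁻ x, ∑' v, F (x.1, v, x.2) ∂μ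

/-- `(H v w).1`: `vw` is an edge; `(H v w).2`: `vw` is in `L`. `L` is a symmetric set of edges
meeting every vertex in `0` or `2` edges. -/
def IsLineEnsemble (H : ℕ → ℕ → Prop × Prop) : Prop :=
  (∀ v w, (H v w).2 → (H v w).1) ∧ (∀ v w, (H v w).2 → (H w v).2) ∧
    ∀ v, {w | (H v w).2}.encard = 0 ∨ {w | (H v w).2}.encard = 2

/-- Forget the marks: `(T, L, o) ↦ (T, o)`. -/
def forget (y : (ℕ → ℕ → Prop × Prop) × ℕ) : (ℕ → ℕ → Prop) × ℕ := (fun v w => (y.1 v w).1, y.2)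

theorem result : ∃ f : ℝ → ℝ, (∀ x, f x = 3 * x - 2) ∧ Tendsto f (𝓝 1) (𝓝 1) ∧
    ∀ (d : ℕ), 2 ≤ d → ∀ (μ : Measure ((ℕ → ℕ → Prop) × ℕ)), IsProbabilityMeasure μ →
      (∀ᵐ x ∂μ, IsLFTree x.1) → Unimodular μ → (∀ᵐ x ∂μ, {w | x.1 x.2 w}.encard ≤ d) →
      ∃ ν : Measure ((ℕ → ℕ → Prop × Prop) × ℕ), IsProbabilityMeasure ν ∧ ν.map forget = μ ∧
        Unimodular ν ∧ (∀ᵐ y ∂ν, IsLineEnsemble y.1) ∧
        f ((∫⁻ x, ({w | x.1 x.2 w}.encard : ℝ≥0∞) ∂μ).toReal / d)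
          ≤ (ν {y | ∃ w, (y.1 y.2 w).2}).toReal := by
  refine ⟨fun x => 3 * x - 2, fun _ => rfl, ?_, fun d hd μ _ ht hμ hb =>
    Pool.Agent.H89.LE.main d hd μ ht hμ hb⟩
  have : Continuous fun x : ℝ => 3 * x - 2 := by fun_prop
  have h := this.tendsto 1
  norm_num at h
  exact h

end Pool.Agent.Results.MP_f65c66_pr.Dense
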